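import Pool.Agent.TH703.HU.Stm
import Pool.Agent.TH73.MI.Basic
import Pool.Agent.TH959.MI.Low

/-!
# Project HU, step A3: `x`-fields on the body bound the weighted perimeter of the base
-/

set_option autoImplicit false

open MeasureTheory Set Metric Filter Topology
open scoped ENNReal Real Manifold ContDiff

noncomputable section

namespace Pool.Agent.TH736.HU

open Pool.Agent.TH304.MI Pool.Agent.TH703.HU Pool.Agent.TH959.MI

/-- the fibre of the body -/
def Fb (m : ℕ) (x : ℂ) : Set (Fin (2 * m + 1) → ℝ) :=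
  {y | |x.re| < 1 / 2 + y 0 ∧ |x.im| < 1 / 2 - y 0 ∧
    ∀ i : Fin (2 * m), if (i : ℕ) < m then |y i.succ| < 1 / 2 + y 0
      else |y i.succ| < 1 / 2 - y 0}

/-- the volume of the fibre -/
def W (m : ℕ) (x : ℂ) : ℝ :=
  ∫ u in (|x.re| - 1 / 2)..(max (|x.re| - 1 / 2) (1 / 2 - |x.im|)), (1 - 4 * u ^ 2) ^ m

theorem continuous_W (m : ℕ) : Continuous (W m) := by
  have hf : Continuous (fun u : ℝ => (1 - 4 * u ^ 2) ^ m) := by fun_prop
  have h : W m = fun x : ℂ => (∫ u in (0 : ℝ)..(max (|x.re| - 1 / 2) (1 / 2 - |x.im|)),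
      (1 - 4 * u ^ 2) ^ m) - ∫ u in (0 : ℝ)..(|x.re| - 1 / 2), (1 - 4 * u ^ 2) ^ m := by
    funext x
    unfold W
    rw [intervalIntegral.integral_interval_sub_left (hf.intervalIntegrable _ _)
      (hf.intervalIntegrable _ _)]
  have hp : Continuous fun b : ℝ => ∫ u in (0 : ℝ)..b, (1 - 4 * u ^ 2) ^ m :=
    intervalIntegral.continuous_primitive (fun a b => hf.intervalIntegrable a b) 0
  have h1 : Continuous fun x : ℂ => |x.re| - 1 / 2 :=
    (Complex.continuous_re.abs).sub continuous_const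
  have h2 : Continuous fun x : ℂ => 1 / 2 - |x.im| :=
    continuous_const.sub Complex.continuous_im.abs
  rw [h]
  exact (hp.comp (h1.max h2)).sub (hp.comp h1)

theorem NN_pos (m : ℕ) : 0 < NN m := by
  unfold NN
  apply intervalIntegral.intervalIntegral_pos_of_pos_on
  · apply Continuous.intervalIntegrable
    fun_prop
  · intro u hu
    apply pow_pos
    nlinarith [hu.1, hu.2]
  · norm_num

theorem NN_mul_wt (m : ℕ) (x : ℂ) : NN m * wt m x = W m x := by
  unfold wt W
  rw [mul_div_cancel₀ _ (NN_pos m).ne']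

theorem isOpen_reg (m : ℕ) :
    IsOpen {q : ℂ × (Fin (2 * m + 1) → ℝ) | q.2 ∈ Fb m q.1} := by
  have h1 : Continuous fun q : ℂ × (Fin (2 * m + 1) → ℝ) => |q.1.re| :=
    (Complex.continuous_re.comp continuous_fst).abs
  have h2 : Continuous fun q : ℂ × (Fin (2 * m + 1) → ℝ) => |q.1.im| :=
    (Complex.continuous_im.comp continuous_fst).abs
  have h3 : ∀ i, Continuous fun q : ℂ × (Fin (2 * m + 1) → ℝ) => q.2 i := fun i =>
    (continuous_apply i).comp continuous_snd
  have e : {q : ℂ × (Fin (2 * m + 1) → ℝ) | q.2 ∈ Fb m q.1} =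
      {q | |q.1.re| < 1 / 2 + q.2 0} ∩ ({q | |q.1.im| < 1 / 2 - q.2 0} ∩
        ⋂ i : Fin (2 * m), {q | if (i : ℕ) < m then |q.2 i.succ| < 1 / 2 + q.2 0
          else |q.2 i.succ| < 1 / 2 - q.2 0}) := by
    ext q
    simp only [Fb, Set.mem_ofPred_eq, mem_inter_iff, mem_iInter]
  rw [e]
  refine (isOpen_lt h1 (continuous_const.add (h3 0))).inter
    ((isOpen_lt h2 (continuous_const.sub (h3 0))).inter (isOpen_iInter_of_finite fun i => ?_))
  by_cases hi : (i : ℕ) < m
  · simp only [hi, if_true]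
    exact isOpen_lt (h3 _).abs (continuous_const.add (h3 0))
  · simp only [hi, if_false]
    exact isOpen_lt (h3 _).abs (continuous_const.sub (h3 0))

theorem isOpen_Fb (m : ℕ) (x : ℂ) : IsOpen (Fb m x) :=
  (isOpen_reg m).preimage (Continuous.prodMk_right x)

theorem mem_Bd {m : ℕ} {p : PP (2 * m + 1)} : p ∈ Bd m ↔ yc p ∈ Fb m (xc p) := Iff.rfl

theorem prod_two (m : ℕ) (s : ℝ) :
    ∏ i : Fin (2 * m), (2 * (if (i : ℕ) < m then 1 / 2 + s else 1 / 2 - s)) =
      (1 - 4 * s ^ 2) ^ m := by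
  have h : ∀ i : Fin (2 * m), (2 * (if (i : ℕ) < m then 1 / 2 + s else 1 / 2 - s)) =
      if (i : ℕ) < m then 1 + 2 * s else 1 - 2 * s := by
    intro i
    split_ifs <;> ring
  simp_rw [h]
  rw [Finset.prod_ite, Finset.prod_const, Finset.prod_const]
  have c1 : (Finset.univ.filter fun i : Fin (2 * m) => (i : ℕ) < m).card = m := by
    rw [Fin.card_filter_val_lt]
    omega
  have c2 : (Finset.univ.filter fun i : Fin (2 * m) => ¬ (i : ℕ) < m).card = m := by
    have := Finset.card_filter_add_card_filter_not (s := (Finset.univ : Finset (Fin (2 * m))))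
      (fun i : Fin (2 * m) => (i : ℕ) < m)
    rw [c1, Finset.card_univ, Fintype.card_fin] at this
    omega
  rw [c1, c2, ← mul_pow]
  congr 1
  ring

theorem volume_Fb (m : ℕ) (x : ℂ) : volume (Fb m x) = ENNReal.ofReal (W m x) := by
  set a : ℝ := |x.re| - 1 / 2 with ha
  set b : ℝ := 1 / 2 - |x.im| with hb
  have ha0 : -(1 / 2) ≤ a := by have := abs_nonneg x.re; linarith
  have hb0 : b ≤ 1 / 2 := by have := abs_nonneg x.im; linarith
  set S : Set (ℝ × (Fin (2 * m) → ℝ)) := {q | |x.re| < 1 / 2 + q.1 ∧ |x.im| < 1 / 2 - q.1 ∧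
    ∀ i : Fin (2 * m), |q.2 i| < if (i : ℕ) < m then 1 / 2 + q.1 else 1 / 2 - q.1} with hS
  have hSo : IsOpen S := by
    have h3 : ∀ i, Continuous fun q : ℝ × (Fin (2 * m) → ℝ) => q.2 i := fun i =>
      (continuous_apply i).comp continuous_snd
    have e : S = {q | |x.re| < 1 / 2 + q.1} ∩ ({q | |x.im| < 1 / 2 - q.1} ∩
        ⋂ i : Fin (2 * m), {q | |q.2 i| < if (i : ℕ) < m then 1 / 2 + q.1 else 1 / 2 - q.1}) := by
      ext q
      simp only [hS, Set.mem_ofPred_eq, mem_inter_iff, mem_iInter]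
    rw [e]
    refine (isOpen_lt continuous_const (continuous_const.add continuous_fst)).inter
      ((isOpen_lt continuous_const (continuous_const.sub continuous_fst)).inter
        (isOpen_iInter_of_finite fun i => ?_))
    by_cases hi : (i : ℕ) < m
    · simp only [hi, if_true]
      exact isOpen_lt (h3 _).abs (continuous_const.add continuous_fst)
    · simp only [hi, if_false]
      exact isOpen_lt (h3 _).abs (continuous_const.sub continuous_fst)
  have hmp := volume_preserving_piFinSuccAbove (fun _ : Fin (2 * m + 1) => ℝ) 0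
  have h1 : Fb m x = (MeasurableEquiv.piFinSuccAbove (fun _ : Fin (2 * m + 1) => ℝ) 0) ⁻¹' S := by
    ext y
    rw [mem_preimage]
    constructor
    · rintro ⟨h1, h2, h3⟩
      refine ⟨h1, h2, fun i => ?_⟩
      have h4 := h3 i
      by_cases hi : (i : ℕ) < m
      · simp only [hi, if_true] at h4 ⊢
        exact h4
      · simp only [hi, if_false] at h4 ⊢
        exact h4
    · rintro ⟨h1, h2, h3⟩
      refine ⟨h1, h2, fun i => ?_⟩
      have h4 := h3 i
      by_cases hi : (i : ℕ) < m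
      · simp only [hi, if_true] at h4 ⊢
        exact h4
      · simp only [hi, if_false] at h4 ⊢
        exact h4
  rw [h1, hmp.measure_preimage hSo.measurableSet.nullMeasurableSet, Measure.volume_eq_prod,
    Measure.prod_apply hSo.measurableSet]
  have h2 : ∀ s : ℝ, volume (Prod.mk s ⁻¹' S) =
      (Ioo a b).indicator (fun s => ENNReal.ofReal ((1 - 4 * s ^ 2) ^ m)) s := by
    intro s
    by_cases hs : s ∈ Ioo a b
    · rw [indicator_of_mem hs]
      have h3 : Prod.mk s ⁻¹' S = Set.pi univ fun i : Fin (2 * m) =>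
          Ioo (-(if (i : ℕ) < m then 1 / 2 + s else 1 / 2 - s))
            (if (i : ℕ) < m then 1 / 2 + s else 1 / 2 - s) := by
        ext y
        rw [mem_preimage, mem_univ_pi]
        constructor
        · rintro ⟨-, -, h4⟩ i
          exact abs_lt.1 (h4 i)
        · intro h4
          refine ⟨?_, ?_, fun i => abs_lt.2 (h4 i)⟩
          · have := hs.1
            simp only
            linarith
          · have := hs.2
            simp only
            linarith
      rw [h3, Real.volume_pi_Ioo, ← ENNReal.ofReal_prod_of_nonneg]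
      · congr 1
        rw [← prod_two]
        refine Finset.prod_congr rfl fun i _ => ?_
        ring
      · intro i _
        have e1 := hs.1
        have e2 := hs.2
        split_ifs <;> linarith
    · rw [indicator_of_notMem hs]
      have h3 : Prod.mk s ⁻¹' S = ∅ := by
        ext y
        rw [mem_preimage]
        refine ⟨?_, fun h => absurd h (notMem_empty _)⟩
        rintro ⟨h4, h5, -⟩
        simp only at h4 h5
        exact absurd ⟨by linarith, by linarith⟩ hs
      rw [h3, measure_empty]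
  rw [lintegral_congr h2, lintegral_indicator measurableSet_Ioo]
  have hc : Continuous fun s : ℝ => (1 - 4 * s ^ 2) ^ m := by fun_prop
  have hi : IntegrableOn (fun s : ℝ => (1 - 4 * s ^ 2) ^ m) (Ioo a b) :=
    (hc.integrableOn_Icc).mono_set Ioo_subset_Icc_self
  rw [← ofReal_integral_eq_lintegral_ofReal hi]
  · congr 1
    unfold W
    rw [← ha, ← hb]
    rcases le_total a b with hab | hab
    · rw [max_eq_right hab, intervalIntegral.integral_of_le hab, integral_Ioc_eq_integral_Ioo]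
    · rw [max_eq_left hab, Ioo_eq_empty (not_lt.2 hab)]
      simp
  · filter_upwards [ae_restrict_mem measurableSet_Ioo] with s hs
    have e1 := hs.1
    have e2 := hs.2
    exact pow_nonneg (by nlinarith) _

theorem exists_bump (m : ℕ) {x₀ : ℂ} (hx : 0 < wt m x₀) {δ : ℝ} (hδ : 0 < δ) :
    ∃ (U : Set ℂ) (h : (Fin (2 * m + 1) → ℝ) → ℝ), IsOpen U ∧ x₀ ∈ U ∧ ContDiff ℝ 1 h ∧
      HasCompactSupport h ∧ (∀ y, 0 ≤ h y) ∧ (∀ y, h y ≤ 1) ∧
      (∀ x ∈ U, tsupport h ⊆ Fb m x) ∧ 0 < ∫ y, h y ∧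
      ∀ x ∈ U, W m x ≤ (1 + δ) * ∫ y, h y := by
  have hW : 0 < W m x₀ := by
    rw [← NN_mul_wt]
    exact mul_pos (NN_pos m) hx
  have h1 : ENNReal.ofReal (W m x₀ / (1 + δ)) < volume (Fb m x₀) := by
    rw [volume_Fb]
    refine (ENNReal.ofReal_lt_ofReal_iff hW).2 ?_
    rw [div_lt_iff₀ (by linarith)]
    nlinarith
  obtain ⟨K, hKF, hK, hK1⟩ := (isOpen_Fb m x₀).exists_lt_isCompact h1
  obtain ⟨L, hL, hKL, hLF⟩ := exists_compact_between hK (isOpen_Fb m x₀) hKF
  obtain ⟨f, hf1, hf0, hf⟩ := exists_contMDiffMap_one_nhds_of_subset_interior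
    𝓘(ℝ, Fin (2 * m + 1) → ℝ) (n := 1) hK.isClosed hKL
  have hfc : ContDiff ℝ 1 (f : (Fin (2 * m + 1) → ℝ) → ℝ) := f.contMDiff.contDiff
  have hts : tsupport (f : (Fin (2 * m + 1) → ℝ) → ℝ) ⊆ L :=
    closure_minimal (fun y hy => by_contra fun h => hy (hf0 y h)) hL.isClosed
  have hcs : HasCompactSupport (f : (Fin (2 * m + 1) → ℝ) → ℝ) :=
    hL.of_isClosed_subset (isClosed_tsupport _) hts
  have hint : Integrable (f : (Fin (2 * m + 1) → ℝ) → ℝ) :=
    hfc.continuous.integrable_of_hasCompactSupport hcs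
  have hKfin : volume K ≠ ⊤ := hK.measure_lt_top.ne
  have h2 : W m x₀ / (1 + δ) < volume.real K := by
    rw [Measure.real]
    exact (ENNReal.ofReal_lt_iff_lt_toReal (by positivity) hKfin).1 hK1
  have h3 : volume.real K ≤ ∫ y, f y := by
    have h4 : ∫ y in K, f y ≤ ∫ y, f y :=
      setIntegral_le_integral hint (ae_of_all _ fun y => (hf y).1)
    have h5 : ∫ y in K, f y = ∫ y in K, (1 : ℝ) :=
      setIntegral_congr_fun hK.measurableSet fun y hy => hf1.self_of_nhdsSet y hy
    rw [h5, setIntegral_const, smul_eq_mul, mul_one] at h4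
    exact h4
  have h4 : W m x₀ < (1 + δ) * ∫ y, f y := by
    have h5 := h2.trans_le h3
    rw [div_lt_iff₀ (by linarith)] at h5
    linarith
  have hI : 0 < ∫ y, f y := lt_of_lt_of_le (lt_trans (by positivity) h2) h3
  -- the neighbourhood
  obtain ⟨U1, V1, hU1, hV1, hxU1, hLV1, hUV⟩ := generalized_tube_lemma (s := {x₀})
    isCompact_singleton hL (n := {q : ℂ × (Fin (2 * m + 1) → ℝ) | q.2 ∈ Fb m q.1})
    (isOpen_reg m) (by
      rintro ⟨x, y⟩ ⟨hx1, hy1⟩
      rw [mem_singleton_iff] at hx1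
      simp only at hx1 hy1
      subst hx1
      exact hLF hy1)
  refine ⟨U1 ∩ {x | W m x < (1 + δ) * ∫ y, f y}, f, hU1.inter ?_, ⟨hxU1 rfl, h4⟩, hfc, hcs,
    fun y => (hf y).1, fun y => (hf y).2, ?_, hI, ?_⟩
  · exact isOpen_lt (continuous_W m) continuous_const
  · intro x hx y hy
    exact hUV (show (x, y) ∈ U1 ×ˢ V1 from ⟨hx.1, hLV1 (hts hy)⟩)
  · intro x hx
    exact le_of_lt hx.2

section cyl

variable {b : ℕ} {F : ℂ × (Fin b → ℝ) → ℂ}

theorem integral_cylO {Ω : Set (PP b)} (hF : ContDiff ℝ 1 F) (hc : HasCompactSupport F)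
    (hs : tsupport (fun p => J b (F (T b p))) ⊆ Ω) {A : Set ℂ} (hA : MeasurableSet A) :
    ∫ p in cylO Ω A, dv (fun p => J b (F (T b p))) p =
      ∫ x in A, Lam (fderiv ℝ (fun x => ∫ y, F (x, y)) x) := by
  obtain ⟨e, he, hm⟩ := Pool.Agent.TH73.MI.t_fub b
  have hset : MeasurableSet (e ⁻¹' (A ×ˢ (univ : Set (Fin b → ℝ)))) :=
    e.measurable (hA.prod MeasurableSet.univ)
  have h1 : ∫ p in cylO Ω A, dv (fun p => J b (F (T b p))) p =
      ∫ p in e ⁻¹' (A ×ˢ (univ : Set (Fin b → ℝ))), dv (fun p => J b (F (T b p))) p := by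
    refine (setIntegral_eq_of_subset_of_forall_sdiff_eq_zero hset ?_ ?_).symm
    · rintro p ⟨_, hp⟩
      rw [mem_preimage, he]
      exact ⟨hp, mem_univ _⟩
    · rintro p ⟨h2, h3⟩
      rw [mem_preimage, he] at h2
      have h4 : p ∉ Ω := fun h => h3 ⟨h, h2.1⟩
      have h5 : p ∉ tsupport (fun p => J b (F (T b p))) := fun h => h4 (hs h)
      have h6 : fderiv ℝ (fun p => J b (F (T b p))) p = 0 := by
        by_contra h
        exact h5 (support_fderiv_subset ℝ h)
      rw [dv, h6]
      simp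
  have h2 : ∀ p, dv (fun p => J b (F (T b p))) p = (fun q => Lam (G1 F q)) (e p) := by
    intro p
    rw [dv_eq (hF.differentiable (by norm_num)), he, T_apply]
  simp_rw [h1, h2]
  rw [hm.setIntegral_preimage_emb e.measurableEmbedding (fun q => Lam (G1 F q)),
    Measure.volume_eq_prod, setIntegral_prod]
  · refine setIntegral_congr_fun hA fun x _ => ?_
    rw [Measure.restrict_univ, integral_Lam hF hc]
  · refine Integrable.integrableOn ?_
    rw [← Measure.volume_eq_prod]
    refine Continuous.integrable_of_hasCompactSupport (Lam.continuous.comp (continuous_G1 hF)) ?_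
    exact (hcs_G1 hc).comp_left (map_zero _)

end cyl

/-- the bound with a loss -/
theorem a3_aux {m : ℕ} {A : Set ℂ} (hA : MeasurableSet A) {C : ℝ}
    (h : ∀ φ : PP (2 * m + 1) → PP (2 * m + 1), Fld 1 (Bd m) φ → (∀ p, yc (φ p) = 0) →
      ∫ p in cylO (Bd m) A, dv φ p ≤ NN m * C) {Y : ℂ → ℂ} (hY : TW (wt m) Y) {δ : ℝ}
    (hδ : 0 < δ) : ∫ x in A, dv2 Y x ≤ (1 + δ) * C := by
  classical
  have hδ1 : 0 < 1 + δ := by linarith
  set K := tsupport Y with hKdef
  have hK : IsCompact K := hY.cs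
  have hpos : ∀ x ∈ K, 0 < wt m x := fun x hx => hY.sub hx
  choose! U hh hUo hxU hhc hhs hh0 hh1 hhF hhI hhW using
    fun (x : ℂ) (hx : x ∈ K) => exists_bump m (hpos x hx) hδ
  obtain ⟨t, htK, htc⟩ := hK.elim_nhds_subcover U fun x hx => (hUo x hx).mem_nhds (hxU x hx)
  have htc' : K ⊆ ⋃ i : t, U i := by
    intro x hx
    have := htc hx
    rw [mem_iUnion₂] at this
    obtain ⟨i, hi, hxi⟩ := this
    exact mem_iUnion.2 ⟨⟨i, hi⟩, hxi⟩
  obtain ⟨f, hf⟩ := SmoothPartitionOfUnity.exists_isSubordinate 𝓘(ℝ, ℂ) (isClosed_tsupport Y)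
    (fun i : t => U i) (fun i => hUo i (htK i i.2)) htc'
  have hfs : ∀ x, ∑ i, f i x ≤ 1 := fun x => by
    have := f.sum_le_one x
    rwa [finsum_eq_sum_of_fintype] at this
  have hfs1 : ∀ x ∈ K, ∑ i, f i x = 1 := fun x hx => by
    have := f.sum_eq_one hx
    rwa [finsum_eq_sum_of_fintype] at this
  have hfc : ∀ i, ContDiff ℝ 1 (fun x => f i x) := fun i =>
    ((f i).contMDiff.contDiff).of_le (by norm_cast)
  -- the field
  set κ : t → ℝ := fun i => NN m / ((1 + δ) * ∫ y, hh i y) with hκ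
  have hκ0 : ∀ i, 0 ≤ κ i := fun i =>
    div_nonneg (NN_pos m).le (mul_nonneg hδ1.le (hhI i (htK i i.2)).le)
  set g : ℂ × (Fin (2 * m + 1) → ℝ) → ℝ := fun q => ∑ i : t, f i q.1 * (κ i * hh i q.2) with hg
  set F : ℂ × (Fin (2 * m + 1) → ℝ) → ℂ := fun q => g q • Y q.1 with hFdef
  have hgc : ContDiff ℝ 1 g := by
    refine ContDiff.sum fun i _ => ?_
    exact ((hfc i).comp contDiff_fst).mul
      (contDiff_const.mul ((hhc i (htK i i.2)).comp contDiff_snd))
  have hF : ContDiff ℝ 1 F := hgc.smul (hY.cd.comp contDiff_fst)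
  have hFsupp : ∀ q, F q ≠ 0 → q.1 ∈ K ∧ ∃ i : t, q.1 ∈ tsupport (f i) ∧
      q.2 ∈ tsupport (hh i) := by
    intro q hq
    have h1 : Y q.1 ≠ 0 := fun h => hq (by simp only [hFdef, h, smul_zero])
    have h2 : g q ≠ 0 := fun h => hq (by simp only [hFdef, h, zero_smul])
    refine ⟨subset_tsupport _ h1, ?_⟩
    obtain ⟨i, _, hi⟩ := Finset.exists_ne_zero_of_sum_ne_zero h2
    refine ⟨i, subset_tsupport _ fun h => hi ?_, subset_tsupport _ fun h => hi ?_⟩
    · rw [h, zero_mul]
    · rw [h, mul_zero, mul_zero]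
  have hc : HasCompactSupport F := by
    refine HasCompactSupport.intro (K := K ×ˢ ⋃ i : t, tsupport (hh i))
      (hK.prod (isCompact_iUnion fun i => hhs i (htK i i.2))) fun q hq => ?_
    by_contra h0
    obtain ⟨h1, i, -, h2⟩ := hFsupp q h0
    exact hq ⟨h1, mem_iUnion.2 ⟨i, h2⟩⟩
  have hs : tsupport (fun p => J (2 * m + 1) (F (T (2 * m + 1) p))) ⊆ Bd m := by
    have hcl : IsClosed (⋃ i : t, {p : PP (2 * m + 1) | (T (2 * m + 1) p).1 ∈ tsupport (f i) ∧
        (T (2 * m + 1) p).2 ∈ tsupport (hh i)}) := by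
      refine isClosed_iUnion_of_finite fun i => ?_
      exact ((isClosed_tsupport _).preimage (continuous_fst.comp (T _).continuous)).inter
        ((isClosed_tsupport _).preimage (continuous_snd.comp (T _).continuous))
    refine (closure_minimal ?_ hcl).trans ?_
    · intro p hp
      obtain ⟨-, i, h1, h2⟩ := hFsupp (T (2 * m + 1) p) fun h0 => hp (by
        dsimp only
        rw [h0, map_zero])
      exact mem_iUnion.2 ⟨i, h1, h2⟩
    · intro p hp
      obtain ⟨i, h1, h2⟩ := mem_iUnion.1 hp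
      rw [mem_Bd]
      exact hhF i (htK i i.2) _ (hf i h1) h2
  have hnorm : ∀ q, ‖F q‖ ≤ 1 := by
    intro q
    by_cases hz : Y q.1 = 0
    · simp only [hFdef, hz, smul_zero, norm_zero]
      exact zero_le_one
    · have hqK : q.1 ∈ K := subset_tsupport _ hz
      have hw := hpos q.1 hqK
      have hg0 : 0 ≤ g q := Finset.sum_nonneg fun i _ =>
        mul_nonneg (f.nonneg i q.1) (mul_nonneg (hκ0 i) (hh0 i (htK i i.2) _))
      have hg1 : g q ≤ (wt m q.1)⁻¹ := by
        calc g q ≤ ∑ i : t, f i q.1 * (wt m q.1)⁻¹ := by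
              refine Finset.sum_le_sum fun i _ => ?_
              by_cases hfi : f i q.1 = 0
              · rw [hfi, zero_mul, zero_mul]
              · refine mul_le_mul_of_nonneg_left ?_ (f.nonneg i q.1)
                have hqU : q.1 ∈ U i := hf i (subset_tsupport _ hfi)
                have h1 := hhW i (htK i i.2) q.1 hqU
                rw [← NN_mul_wt] at h1
                have hI := hhI i (htK i i.2)
                have h2 : κ i ≤ (wt m q.1)⁻¹ := by
                  rw [hκ, inv_eq_one_div]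
                  simp only
                  rw [div_le_div_iff₀ (mul_pos hδ1 hI) hw, one_mul]
                  exact h1
                calc κ i * hh i q.2 ≤ κ i * 1 :=
                      mul_le_mul_of_nonneg_left (hh1 i (htK i i.2) _) (hκ0 i)
                  _ ≤ _ := by rw [mul_one]; exact h2
          _ = (∑ i : t, f i q.1) * (wt m q.1)⁻¹ := by rw [Finset.sum_mul]
          _ ≤ 1 * (wt m q.1)⁻¹ := mul_le_mul_of_nonneg_right (hfs _) (inv_nonneg.2 hw.le)
          _ = _ := one_mul _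
      have h3 : ‖F q‖ = g q * ‖Y q.1‖ := by
        simp only [hFdef]
        rw [norm_smul, Real.norm_eq_abs, abs_of_nonneg hg0]
      rw [h3]
      calc g q * ‖Y q.1‖ ≤ (wt m q.1)⁻¹ * wt m q.1 :=
            mul_le_mul hg1 (hY.le _) (norm_nonneg _) (inv_nonneg.2 hw.le)
        _ = 1 := inv_mul_cancel₀ hw.ne'
  have hint : ∀ i : t, Integrable (hh i) := fun i =>
    (hhc i (htK i i.2)).continuous.integrable_of_hasCompactSupport (hhs i (htK i i.2))
  have hmarg : (fun x => ∫ y, F (x, y)) = fun x => (NN m / (1 + δ)) • Y x := by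
    funext x
    by_cases hz : Y x = 0
    · simp [hFdef, hz]
    · have hxK : x ∈ K := subset_tsupport _ hz
      simp only [hFdef]
      rw [integral_smul_const]
      congr 1
      simp only [hg]
      rw [integral_finsetSum _ fun i _ => ((hint i).const_mul _).const_mul _]
      have h1 : ∀ i : t, ∫ y, f i x * (κ i * hh i y) = f i x * (NN m / (1 + δ)) := by
        intro i
        rw [integral_const_mul, integral_const_mul]
        congr 1
        simp only [hκ]
        have := (hhI i (htK i i.2)).ne'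
        field_simp
      rw [Finset.sum_congr rfl fun i _ => h1 i, ← Finset.sum_mul, hfs1 x hxK, one_mul]
  have h2 := h (fun p => J (2 * m + 1) (F (T (2 * m + 1) p))) ⟨?_, ?_, hs, ?_⟩ ?_
  · rw [integral_cylO hF hc hs hA, hmarg] at h2
    simp_rw [Lam_fderiv hY.cd] at h2
    rw [integral_const_mul, div_mul_eq_mul_div, div_le_iff₀ hδ1] at h2
    have h3 : NN m * ∫ x in A, dv2 Y x ≤ NN m * ((1 + δ) * C) := by linarith
    exact le_of_mul_le_mul_left h3 (NN_pos m)
  · exact (J _).contDiff.comp (hF.comp (T _).contDiff)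
  · refine HasCompactSupport.comp_left (g := J _) (f := fun p => F (T _ p)) ?_ (map_zero _)
    obtain ⟨e, he, -⟩ := Pool.Agent.TH73.MI.t_fub (2 * m + 1)
    refine hc.comp_isClosedEmbedding (g := T (2 * m + 1)) ?_
    refine (LinearMap.isClosedEmbedding_of_injective (f := (T (2 * m + 1)).toLinearMap) ?_)
    rw [LinearMap.ker_eq_bot]
    intro p q hpq
    have : e p = e q := by rw [he, he]; exact hpq
    exact e.injective this
  · intro p
    rw [sc_one, norm_J]
    exact hnorm _
  · intro p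
    funext i
    exact J_succ _ i

theorem a3' : S_A3 := by
  intro m A hA C h Y hY
  have hlim : Tendsto (fun n : ℕ => (1 + 1 / ((n : ℝ) + 1)) * C) atTop (𝓝 ((1 + 0) * C)) :=
    (tendsto_const_nhds.add tendsto_one_div_add_atTop_nhds_zero_nat).mul_const _
  rw [add_zero, one_mul] at hlim
  exact ge_of_tendsto' hlim fun n => a3_aux hA h hY (by positivity)

theorem a3 (_ : S_C0) (_ : S_A1) : S_A3 := a3'

end Pool.Agent.TH736.HU
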